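import Pool.Agent.H86.OC.RA

/-!
Theorem OC, row CHV: decoupling.  The block `o` of the line (the next digits of the cell) is
almost independent of the data `y` (times, position) given the cell `g`: then the law of the
second copy given `(y, g)` may be replaced by its law given `g`.
-/

set_option autoImplicit false

namespace Pool.OC

open Finset Real
open Pool.Agent.H49.Ent Pool.Agent.H32.Dense Pool.STK Pool.KAF Pool.KX

variable {Ω : Type} [Fintype Ω] {O β θ : Type}

/-- `P{o ∈ A}` as a sum over a finite set of values -/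
theorem Pr_law {p : Ω → ℝ} (o : Ω → O) (F : Finset O) (hF : ∀ ω, 0 < p ω → o ω ∈ F)
    (hp : ∀ ω, 0 ≤ p ω) (A : Set O) [DecidablePred (· ∈ A)] :
    Pr p {ω | o ω ∈ A} = ∑ s ∈ F.filter (· ∈ A), law p o s := by
  classical
  rw [Pool.KAF.Pr_eq]
  unfold law
  have h1 : ∀ s ∈ F.filter (· ∈ A), (∑ ω, if o ω = s then p ω else 0) =
      ∑ ω, if o ω = s then p ω else 0 := fun _ _ => rfl
  rw [Finset.sum_comm]
  refine Finset.sum_congr rfl fun ω _ => ?_
  rcases (hp ω).eq_or_lt with h0 | h0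
  · rw [← h0]
    simp
  · by_cases h2 : o ω ∈ A
    · rw [if_pos (by exact h2), Finset.sum_ite_eq]
      rw [if_pos (by
        rw [mem_filter]
        exact ⟨hF ω h0, h2⟩)]
    · rw [if_neg (by exact h2), Finset.sum_ite_eq, if_neg]
      rw [mem_filter]
      exact fun h => h2 h.2

/-- The tower property. -/
theorem tower {p : Ω → ℝ} (hp : ∀ ω, 0 ≤ p ω) (g : Ω → β) (h : Ω → ℝ) :
    ∑ ω, p ω * ∑ ω', cond p g (g ω) ω' * h ω' = ∑ ω, p ω * h ω := by
  classical
  rw [sum_mul_eq_sum_image p g (fun z => ∑ ω', cond p g z ω' * h ω')]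
  have h1 : ∀ z ∈ univ.image g, law p g z * ∑ ω', cond p g z ω' * h ω' =
      ∑ ω', if g ω' = z then p ω' * h ω' else 0 := by
    intro z _
    rw [Finset.mul_sum]
    refine Finset.sum_congr rfl fun ω' _ => ?_
    unfold Pool.Agent.H49.Ent.cond
    by_cases hz : g ω' = z
    · rw [if_pos hz, if_pos hz]
      rcases (hp ω').eq_or_lt with h0 | h0
      · rw [← h0]
        simp
      · have h2 := law_pos hp g h0
        rw [hz] at h2
        field_simp
    · rw [if_neg hz, if_neg hz]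
      simp
  rw [Finset.sum_congr rfl h1, Finset.sum_comm]
  refine Finset.sum_congr rfl fun ω _ => ?_
  rw [Finset.sum_eq_single (g ω)]
  · rw [if_pos rfl]
  · intro z _ hz
    rw [if_neg hz.symm]
  · intro h
    exact absurd (mem_image_of_mem g (mem_univ ω)) h

/-- Jensen's inequality for the square root. -/
theorem sqrt_jensen {p : Ω → ℝ} (hp : IsLaw p) (x : Ω → ℝ) (hx : ∀ ω, 0 < p ω → 0 ≤ x ω) :
    ∑ ω, p ω * Real.sqrt (x ω) ≤ Real.sqrt (∑ ω, p ω * x ω) := by
  have h1 : ∀ ω, p ω * Real.sqrt (x ω) = Real.sqrt (p ω) * Real.sqrt (p ω * x ω) := by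
    intro ω
    rw [Real.sqrt_mul (hp.nonneg ω), ← mul_assoc, Real.mul_self_sqrt (hp.nonneg ω)]
  have h2 : ∀ ω, 0 ≤ p ω * x ω := by
    intro ω
    rcases (hp.nonneg ω).eq_or_lt with h0 | h0
    · rw [← h0, zero_mul]
    · exact mul_nonneg h0.le (hx ω h0)
  rw [Finset.sum_congr rfl fun ω _ => h1 ω]
  refine (Real.sum_sqrt_mul_sqrt_le univ hp.nonneg h2).trans ?_
  rw [hp.sum_one, Real.sqrt_one, one_mul]

theorem Pr_diff {q r : Ω → ℝ} (hq : ∀ ω, 0 ≤ q ω) (hr : ∀ ω, 0 ≤ r ω) (o : Ω → O) (A : Set O)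
    [DecidableEq O] :
    Pr q {ω | o ω ∈ A} - Pr r {ω | o ω ∈ A} ≤
      ∑ s ∈ univ.image o, |law q o s - law r o s| := by
  classical
  have hF : ∀ ω, o ω ∈ univ.image o := fun ω => mem_image_of_mem o (mem_univ ω)
  rw [Pr_law o (univ.image o) (fun ω _ => hF ω) hq A,
    Pr_law o (univ.image o) (fun ω _ => hF ω) hr A, ← Finset.sum_sub_distrib]
  refine (Finset.sum_le_sum fun s _ => le_abs_self _).trans ?_
  exact Finset.sum_le_sum_of_subset_of_nonneg (filter_subset _ _) fun _ _ _ => abs_nonneg _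

/-- Decoupling under one law. -/
theorem dec_at {q : Ω → ℝ} (hq : IsLaw q) (o : Ω → O) (y : Ω → θ) (f : Ω → ℝ)
    (hf : ∀ ω, 0 ≤ f ω ∧ f ω ≤ 1) (R : Ω → Set O) :
    ∑ ω, q ω * (f ω * Pr q {ω' | o ω' ∈ R ω}) ≤
      ∑ ω, q ω * (f ω * Pr (cond q y (y ω)) {ω' | o ω' ∈ R ω}) +
        2 * Real.sqrt (H q o + H q y - H q (fun ω => (o ω, y ω))) := by
  classical
  set T : θ → ℝ := fun v => ∑ s ∈ univ.image o, |law q o s - law (cond q y v) o s| with hT
  have hpin := Pool.KVA.pinsker q o y hq.nonneg hq.sum_one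
  have h1 : ∑ ω, q ω * T (y ω) ≤
      2 * Real.sqrt (H q o + H q y - H q (fun ω => (o ω, y ω))) := by
    refine le_trans (le_of_eq ?_) hpin
    rw [sum_mul_eq_sum_image q y T, Finset.sum_product_right]
    refine Finset.sum_congr rfl fun v hv => ?_
    rw [hT, Finset.mul_sum]
    refine Finset.sum_congr rfl fun s _ => ?_
    rcases (law_nonneg hq.nonneg y v).eq_or_lt with h0 | h0
    · have h2 := law_pair_le' hq.nonneg o y s v
      have h3 := law_nonneg hq.nonneg (fun ω => (o ω, y ω)) (s, v)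
      have h4 : law q (fun ω => (o ω, y ω)) (s, v) = 0 := le_antisymm (h0 ▸ h2) h3
      rw [h4, ← h0]
      simp
    · rw [law_cond, ← abs_of_pos h0, ← abs_mul, abs_of_pos h0, mul_sub, mul_div_cancel₀ _ h0.ne',
        abs_sub_comm, mul_comm (law q y v)]
  have h2 : ∀ ω, q ω * (f ω * Pr q {ω' | o ω' ∈ R ω}) ≤
      q ω * (f ω * Pr (cond q y (y ω)) {ω' | o ω' ∈ R ω}) + q ω * T (y ω) := by
    intro ω
    have h3 : Pr q {ω' | o ω' ∈ R ω} - Pr (cond q y (y ω)) {ω' | o ω' ∈ R ω} ≤ T (y ω) :=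
      Pr_diff hq.nonneg (cond_nonneg hq.nonneg _ _) o (R ω)
    have h4 : 0 ≤ T (y ω) := Finset.sum_nonneg fun _ _ => abs_nonneg _
    rw [← mul_add]
    refine mul_le_mul_of_nonneg_left ?_ (hq.nonneg ω)
    obtain ⟨h5, h6⟩ := hf ω
    nlinarith
  have h3 := Finset.sum_le_sum fun ω (_ : ω ∈ univ) => h2 ω
  rw [Finset.sum_add_distrib] at h3
  linarith

/-- Decoupling: the law of the second copy given `(y, g)` is replaced by its law given `g`. -/
theorem dec_thm {p : Ω → ℝ} (hp : IsLaw p) (o : Ω → O) (y : Ω → θ) (g : Ω → β) (f : Ω → ℝ)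
    (hf : ∀ ω, 0 ≤ f ω ∧ f ω ≤ 1) (R : Ω → Set O) :
    ∑ ω, p ω * (f ω * Pr (cond p g (g ω)) {ω' | o ω' ∈ R ω}) ≤
      ∑ ω, p ω * (f ω * Pr (cond p (fun u => (y u, g u)) (y ω, g ω)) {ω' | o ω' ∈ R ω}) +
        2 * Real.sqrt (Pool.KVA.MI p o y g) := by
  classical
  rw [← tower hp.nonneg g (fun ω => f ω * Pr (cond p g (g ω)) {ω' | o ω' ∈ R ω}),
    ← tower hp.nonneg g (fun ω => f ω *
      Pr (cond p (fun u => (y u, g u)) (y ω, g ω)) {ω' | o ω' ∈ R ω})]
  have h0 : ∀ ω, 0 < p ω → 0 ≤ H (cond p g (g ω)) o + H (cond p g (g ω)) y -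
      H (cond p g (g ω)) (fun ω' => (o ω', y ω')) := by
    intro ω hω
    have hl := isLaw_cond hp g hω
    have := subadd hl.nonneg hl.sum_one (X := o) (Y := y) (W := fun ω' => (o ω', y ω'))
      (fun ω ω' _ _ h => h)
    linarith
  have h1 : ∀ ω, p ω * ∑ ω', cond p g (g ω) ω' *
      (f ω' * Pr (cond p g (g ω')) {u | o u ∈ R ω'}) ≤
      p ω * ∑ ω', cond p g (g ω) ω' *
        (f ω' * Pr (cond p (fun u => (y u, g u)) (y ω', g ω')) {u | o u ∈ R ω'}) +
      p ω * (2 * Real.sqrt (H (cond p g (g ω)) o + H (cond p g (g ω)) y -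
        H (cond p g (g ω)) (fun ω' => (o ω', y ω')))) := by
    intro ω
    rcases (hp.nonneg ω).eq_or_lt with hω | hω
    · rw [← hω]
      simp
    rw [← mul_add]
    refine mul_le_mul_of_nonneg_left ?_ hω.le
    have hl := isLaw_cond hp g hω
    have h2 := dec_at hl o y f hf R
    have e1 : ∑ ω', cond p g (g ω) ω' * (f ω' * Pr (cond p g (g ω')) {u | o u ∈ R ω'}) =
        ∑ ω', cond p g (g ω) ω' * (f ω' * Pr (cond p g (g ω)) {u | o u ∈ R ω'}) := by
      refine Finset.sum_congr rfl fun ω' _ => ?_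
      rcases (cond_nonneg hp.nonneg g (g ω) ω').eq_or_lt with h3 | h3
      · rw [← h3, zero_mul, zero_mul]
      · rw [((cond_pos_iff hp.nonneg g (g ω) ω').1 h3).2]
    have e2 : ∑ ω', cond p g (g ω) ω' *
        (f ω' * Pr (cond p (fun u => (y u, g u)) (y ω', g ω')) {u | o u ∈ R ω'}) =
        ∑ ω', cond p g (g ω) ω' * (f ω' * Pr (cond (cond p g (g ω)) y (y ω')) {u | o u ∈ R ω'}) := by
      refine Finset.sum_congr rfl fun ω' _ => ?_
      rcases (cond_nonneg hp.nonneg g (g ω) ω').eq_or_lt with h3 | h3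
      · rw [← h3, zero_mul, zero_mul]
      · have h4 := cond_swap hp.nonneg g y h3
        rw [h4]
    rw [e1, e2]
    exact h2
  refine (Finset.sum_le_sum fun ω _ => h1 ω).trans ?_
  rw [Finset.sum_add_distrib]
  have h2 : ∑ ω, p ω * (2 * Real.sqrt (H (cond p g (g ω)) o + H (cond p g (g ω)) y -
      H (cond p g (g ω)) (fun ω' => (o ω', y ω')))) ≤ 2 * Real.sqrt (Pool.KVA.MI p o y g) := by
    rw [AVG.MI_eq hp.nonneg]
    have h3 := sqrt_jensen hp (fun ω => H (cond p g (g ω)) o + H (cond p g (g ω)) y -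
      H (cond p g (g ω)) (fun ω' => (o ω', y ω'))) h0
    have e1 : ∑ ω, p ω * (2 * Real.sqrt (H (cond p g (g ω)) o + H (cond p g (g ω)) y -
        H (cond p g (g ω)) (fun ω' => (o ω', y ω')))) =
        2 * ∑ ω, p ω * Real.sqrt (H (cond p g (g ω)) o + H (cond p g (g ω)) y -
        H (cond p g (g ω)) (fun ω' => (o ω', y ω'))) := by
      rw [Finset.mul_sum]
      exact Finset.sum_congr rfl fun ω _ => by ring
    rw [e1]
    linarith
  linarith

/-- Chain rule along nested cells. -/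
theorem mi_sum {p : Ω → ℝ} (hp : ∀ ω, 0 ≤ p ω) {γ : ℕ → Type} (G : ∀ s, Ω → γ s) (y : Ω → θ)
    (hG : ∀ s, Det p (G (s + 1)) (G s)) (n k : ℕ) :
    ∑ s ∈ range n, Pool.KVA.MI p (G (s + k)) y (G s) ≤
      k * (CH p y (G 0) - CH p y (G (n + k))) := by
  classical
  have hdet : ∀ s j, Det p (G (s + j)) (G s) := by
    intro s j
    induction j with
    | zero => exact fun _ _ _ _ h => h
    | succ j ih => exact fun ω ω' h1 h2 h => ih ω ω' h1 h2 (hG (s + j) ω ω' h1 h2 h)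
  have hmi : ∀ s, Pool.KVA.MI p (G (s + k)) y (G s) = CH p y (G s) - CH p y (G (s + k)) := by
    intro s
    unfold Pool.KVA.MI
    have h1 := CH_chain hp y (G (s + k)) (G s)
    have h2 : CH p y (fun ω => (G (s + k) ω, G s ω)) = CH p y (G (s + k)) := by
      apply le_antisymm
      · exact CH_mono_cond hp fun ω ω' _ _ h => (Prod.ext_iff.1 h).1
      · exact CH_mono_cond hp fun ω ω' h1 h2 h => Prod.ext h (hdet s k ω ω' h1 h2 h)
    have h3 : CH p (fun ω => (G (s + k) ω, y ω)) (G s) =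
        CH p (fun ω => (y ω, G (s + k) ω)) (G s) := by
      refine CH_congr hp ?_ ?_ (fun _ _ _ _ h => h) (fun _ _ _ _ h => h) <;>
      · intro ω ω' _ _ hw
        simp only [Prod.mk.injEq] at hw ⊢
        tauto
    linarith
  have hanti : ∀ s j, CH p y (G (s + j)) ≤ CH p y (G s) := fun s j => CH_mono_cond hp (hdet s j)
  rw [Finset.sum_congr rfl fun s _ => hmi s, Finset.sum_sub_distrib]
  have h1 : ∑ s ∈ range n, CH p y (G s) + ∑ s ∈ range k, CH p y (G (n + s)) =
      ∑ s ∈ range k, CH p y (G s) + ∑ s ∈ range n, CH p y (G (s + k)) := by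
    rw [← Finset.sum_range_add (fun s => CH p y (G s)) n k, add_comm n k,
      Finset.sum_range_add (fun s => CH p y (G s)) k n]
    congr 1
    exact Finset.sum_congr rfl fun s _ => by rw [add_comm]
  have h2 : ∑ s ∈ range k, CH p y (G s) ≤ k * CH p y (G 0) := by
    calc _ ≤ ∑ _s ∈ range k, CH p y (G 0) := Finset.sum_le_sum fun s _ => by
            have := hanti 0 s
            rwa [zero_add] at this
      _ = k * CH p y (G 0) := by rw [sum_const, card_range, nsmul_eq_mul]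
  have h3 : k * CH p y (G (n + k)) ≤ ∑ s ∈ range k, CH p y (G (n + s)) := by
    calc k * CH p y (G (n + k)) = ∑ _s ∈ range k, CH p y (G (n + k)) := by
            rw [sum_const, card_range, nsmul_eq_mul]
      _ ≤ _ := Finset.sum_le_sum fun s hs => by
            have h4 := mem_range.1 hs
            have h5 := hanti (n + s) (k - s)
            have e1 : n + s + (k - s) = n + k := by omega
            rwa [e1] at h5
  linarith

/-- Decoupling, summed over the depths. -/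
theorem dec_sum {p : Ω → ℝ} (hp : IsLaw p) {γ : ℕ → Type} (G : ∀ s, Ω → γ s) (y : Ω → θ)
    (hG : ∀ s, Det p (G (s + 1)) (G s)) (n k : ℕ) (f : ℕ → Ω → ℝ)
    (hf : ∀ s ω, 0 ≤ f s ω ∧ f s ω ≤ 1) (R : ∀ s, Ω → Set (γ (s + k))) {a : ℝ}
    (ha : CH p y (G 0) - CH p y (G (n + k)) ≤ a) :
    ∑ s ∈ range n, ∑ ω, p ω * (f s ω * Pr (cond p (G s) (G s ω)) {ω' | G (s + k) ω' ∈ R s ω}) ≤
      ∑ s ∈ range n, ∑ ω, p ω * (f s ω * Pr (cond p (fun u => (y u, G s u)) (y ω, G s ω))
        {ω' | G (s + k) ω' ∈ R s ω}) + 2 * Real.sqrt (n * (k * a)) := by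
  classical
  have h1 : ∀ s, ∑ ω, p ω * (f s ω * Pr (cond p (G s) (G s ω)) {ω' | G (s + k) ω' ∈ R s ω}) ≤
      ∑ ω, p ω * (f s ω * Pr (cond p (fun u => (y u, G s u)) (y ω, G s ω))
        {ω' | G (s + k) ω' ∈ R s ω}) + 2 * Real.sqrt (Pool.KVA.MI p (G (s + k)) y (G s)) :=
    fun s => dec_thm hp (G (s + k)) y (G s) (f s) (hf s) (R s)
  refine (Finset.sum_le_sum fun s _ => h1 s).trans ?_
  rw [Finset.sum_add_distrib, ← Finset.mul_sum]
  have h2 : ∑ s ∈ range n, Real.sqrt (Pool.KVA.MI p (G (s + k)) y (G s)) ≤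
      Real.sqrt (n * (k * a)) := by
    have h3 := Real.sum_sqrt_mul_sqrt_le (range n) (f := fun _ => (1 : ℝ))
      (g := fun s => Pool.KVA.MI p (G (s + k)) y (G s)) (fun _ => zero_le_one)
      (fun s => Pool.CLU.MI_nonneg hp.nonneg _ _ _)
    simp only [Real.sqrt_one, one_mul, sum_const, card_range, nsmul_eq_mul, mul_one] at h3
    rw [← Real.sqrt_mul (Nat.cast_nonneg n)] at h3
    refine h3.trans (Real.sqrt_le_sqrt (mul_le_mul_of_nonneg_left ?_ (Nat.cast_nonneg n)))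
    refine (mi_sum hp.nonneg G y hG n k).trans ?_
    exact mul_le_mul_of_nonneg_left ha (Nat.cast_nonneg k)
  linarith

end Pool.OC
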