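import Mathlib

/-!
Theorem OC, module GRA (robust connectivity of the scales, section 3.4 of K_ONECTX).

`J` is the set of the sums `σ = s + i` (depth `s`, scale `i`) at which the comparison is possible,
`G σ i` says that the edge (depth `σ - i`, scale `i`) is good, `f i` is the value at the scale
`i`.  Values seen at the same depth agree up to `d`.  Then all values but a small proportion
agree up to `2 N d`.
-/

namespace Pool.OC

open Finset

variable {E : Type*} [PseudoMetricSpace E]

/-- `f` is `h`-periodic up to `D`, with at most `e` exceptions -/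
def Per (L : ℕ) (f : ℕ → E) (h : ℕ) (e D : ℝ) : Prop :=
  (((range L).filter fun i => i + h < L ∧ D < dist (f i) (f (i + h))).card : ℝ) ≤ e

theorem Per.mono {L : ℕ} {f : ℕ → E} {h : ℕ} {e D e' D' : ℝ} (hP : Per L f h e D)
    (he : e ≤ e') (hD : D ≤ D') : Per L f h e' D' := by
  refine le_trans ?_ (le_trans hP he)
  have : ((range L).filter fun i => i + h < L ∧ D' < dist (f i) (f (i + h))) ⊆
      ((range L).filter fun i => i + h < L ∧ D < dist (f i) (f (i + h))) := by
    intro i hi
    rw [mem_filter] at hi ⊢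
    exact ⟨hi.1, hi.2.1, lt_of_le_of_lt hD hi.2.2⟩
  exact_mod_cast card_le_card this

theorem Per.zero (L : ℕ) (f : ℕ → E) {D : ℝ} (hD : 0 ≤ D) : Per L f 0 0 D := by
  have : ((range L).filter fun i => i + 0 < L ∧ D < dist (f i) (f (i + 0))) = ∅ := by
    rw [filter_eq_empty_iff]
    rintro i _ ⟨_, h⟩
    rw [add_zero, dist_self] at h
    exact absurd h (not_lt.2 hD)
  unfold Per
  rw [this]
  simp

theorem Per.add {L : ℕ} {f : ℕ → E} {h h' : ℕ} {e D e' D' : ℝ} (hP : Per L f h e D)
    (hP' : Per L f h' e' D') : Per L f (h + h') (e + e') (D + D') := by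
  have hsub : ((range L).filter fun i => i + (h + h') < L ∧
      D + D' < dist (f i) (f (i + (h + h')))) ⊆
      ((range L).filter fun i => i + h < L ∧ D < dist (f i) (f (i + h))) ∪
      ((range L).filter fun i => i + h < L ∧
        (i + h) + h' < L ∧ D' < dist (f (i + h)) (f (i + h + h'))) := by
    intro i hi
    rw [mem_filter] at hi
    rw [mem_union, mem_filter, mem_filter]
    by_cases h1 : D < dist (f i) (f (i + h))
    · exact Or.inl ⟨hi.1, by omega, h1⟩
    · right
      refine ⟨hi.1, by omega, by omega, ?_⟩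
      have h2 := hi.2.2
      rw [← add_assoc] at h2
      have h3 := dist_triangle (f i) (f (i + h)) (f (i + h + h'))
      push Not at h1
      linarith
  have hinj : (((range L).filter fun i => i + h < L ∧
        (i + h) + h' < L ∧ D' < dist (f (i + h)) (f (i + h + h'))).card : ℝ) ≤ e' := by
    refine le_trans ?_ hP'
    have : ((range L).filter fun i => i + h < L ∧
        (i + h) + h' < L ∧ D' < dist (f (i + h)) (f (i + h + h'))).card ≤
        ((range L).filter fun i => i + h' < L ∧ D' < dist (f i) (f (i + h'))).card := by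
      apply card_le_card_of_injOn (fun i => i + h)
      · intro i hi
        rw [mem_coe, mem_filter] at hi ⊢
        exact ⟨mem_range.2 hi.2.1, hi.2.2⟩
      · intro i _ j _ hij
        simpa using hij
    exact_mod_cast this
  have hc : (((range L).filter fun i => i + (h + h') < L ∧
      D + D' < dist (f i) (f (i + (h + h')))).card : ℝ) ≤
      (((range L).filter fun i => i + h < L ∧ D < dist (f i) (f (i + h))).card : ℝ) +
      (((range L).filter fun i => i + h < L ∧
        (i + h) + h' < L ∧ D' < dist (f (i + h)) (f (i + h + h'))).card : ℝ) := by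
    exact_mod_cast le_trans (card_le_card hsub) (card_union_le _ _)
  unfold Per at hP ⊢
  linarith

theorem Per.mul {L : ℕ} {f : ℕ → E} {h : ℕ} {e D : ℝ} (hP : Per L f h e D) (n : ℕ) :
    Per L f (n * h) (n * e) (n * D) := by
  induction n with
  | zero => simpa using Per.zero L f (le_refl (0 : ℝ))
  | succ n ih =>
    have := ih.add hP
    have e1 : (n + 1) * h = n * h + h := by ring
    have e2 : ((n + 1 : ℕ) : ℝ) * e = n * e + e := by push_cast; ring
    have e3 : ((n + 1 : ℕ) : ℝ) * D = n * D + D := by push_cast; ring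
    rw [e1, e2, e3]
    exact this

open Classical in
/-- the hypotheses of the module GRA -/
structure GraHyp (L X : ℕ) (J : Finset ℕ) (G : ℕ → ℕ → Prop) (f : ℕ → E) (d ε u : ℝ) :
    Prop where
  L0 : 0 < L
  LX : L ≤ X
  d0 : 0 ≤ d
  ε0 : 0 ≤ ε
  u0 : 0 < u
  JX : ∀ σ ∈ J, σ < X
  Jcard : u * X ≤ J.card
  /-- thick rows -/
  thick : (4 : ℝ) * ((J.filter fun σ => σ + 1 ∉ J).card : ℝ) ≤ J.card
  /-- values seen at the same depth agree -/
  agree : ∀ σ ∈ J, ∀ σ' ∈ J, ∀ i < L, ∀ i' < L, σ + i' = σ' + i → G σ i → G σ' i' →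
    dist (f i) (f i') ≤ d
  /-- few bad edges -/
  bad : ∑ σ ∈ J, (((range L).filter fun i => ¬ G σ i).card : ℝ) ≤ ε * (J.card * L)

open Classical in
/-- the good sums -/
noncomputable def Jg (L : ℕ) (J : Finset ℕ) (G : ℕ → ℕ → Prop) (ε : ℝ) : Finset ℕ :=
  J.filter fun σ => (((range L).filter fun i => ¬ G σ i).card : ℝ) ≤ 8 * ε * L

namespace GraHyp

variable {L X : ℕ} {J : Finset ℕ} {G : ℕ → ℕ → Prop} {f : ℕ → E} {d ε u : ℝ}

open Classical in
theorem card_bad (H : GraHyp L X J G f d ε u) :
    (8 : ℝ) * ((J.filter fun σ => σ ∉ Jg L J G ε).card : ℝ) ≤ J.card := by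
  have hL : (0 : ℝ) < L := by exact_mod_cast H.L0
  set B := J.filter fun σ => σ ∉ Jg L J G ε with hB
  have hb : ∀ σ ∈ B, 8 * ε * L < (((range L).filter fun i => ¬ G σ i).card : ℝ) := by
    intro σ hσ
    rw [hB, mem_filter, Jg, mem_filter, not_and, not_le] at hσ
    exact hσ.2 hσ.1
  have h1 : ∑ σ ∈ B, (8 * ε * L) ≤ ∑ σ ∈ B, (((range L).filter fun i => ¬ G σ i).card : ℝ) :=
    sum_le_sum fun σ hσ => (hb σ hσ).le
  have h2 : ∑ σ ∈ B, (((range L).filter fun i => ¬ G σ i).card : ℝ) ≤
      ∑ σ ∈ J, (((range L).filter fun i => ¬ G σ i).card : ℝ) :=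
    sum_le_sum_of_subset_of_nonneg (filter_subset _ _) fun _ _ _ => by positivity
  rw [sum_const, nsmul_eq_mul] at h1
  rcases H.ε0.eq_or_lt with h0 | h0
  · -- `ε = 0`: there are no bad sums
    have h3 : B = ∅ := by
      rw [eq_empty_iff_forall_notMem]
      intro σ hσ
      have h4 := hb σ hσ
      have h5 : (((range L).filter fun i => ¬ G σ i).card : ℝ) ≤
          ∑ σ ∈ J, (((range L).filter fun i => ¬ G σ i).card : ℝ) :=
        single_le_sum (f := fun σ => (((range L).filter fun i => ¬ G σ i).card : ℝ))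
          (fun _ _ => by positivity) (mem_filter.1 hσ).1
      have h6 := H.bad
      rw [← h0] at h4 h6
      simp only [mul_zero, zero_mul] at h4 h6
      linarith
    rw [h3]
    simp
  · have h6 := H.bad
    have h7 : (B.card : ℝ) * (8 * ε * L) ≤ ε * (J.card * L) := by linarith
    have h8 : (ε * L) * (8 * (B.card : ℝ)) ≤ (ε * L) * J.card := by
      calc (ε * L) * (8 * (B.card : ℝ)) = (B.card : ℝ) * (8 * ε * L) := by ring
        _ ≤ ε * (J.card * L) := h7
        _ = (ε * L) * J.card := by ring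
    exact le_of_mul_le_mul_left h8 (mul_pos h0 hL)

theorem J_pos (H : GraHyp L X J G f d ε u) : (0 : ℝ) < J.card := by
  have hX : (0 : ℝ) < X := by
    have := lt_of_lt_of_le H.L0 H.LX
    exact_mod_cast this
  exact lt_of_lt_of_le (mul_pos H.u0 hX) H.Jcard

theorem Jg_sub : Jg L J G ε ⊆ J := by
  intro σ hσ
  rw [Jg, mem_filter] at hσ
  exact hσ.1

theorem Jg_card (H : GraHyp L X J G f d ε u) :
    (7 : ℝ) * J.card ≤ 8 * ((Jg L J G ε).card : ℝ) := by
  classical
  have h1 := H.card_bad
  have h2 : J.card ≤ (Jg L J G ε).card + (J.filter fun σ => σ ∉ Jg L J G ε).card := by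
    have : J ⊆ Jg L J G ε ∪ (J.filter fun σ => σ ∉ Jg L J G ε) := by
      intro σ hσ
      by_cases h : σ ∈ Jg L J G ε
      · exact mem_union_left _ h
      · exact mem_union_right _ (mem_filter.2 ⟨hσ, h⟩)
    exact le_trans (card_le_card this) (card_union_le _ _)
  have h3 : (J.card : ℝ) ≤ (Jg L J G ε).card + ((J.filter fun σ => σ ∉ Jg L J G ε).card : ℝ) := by
    exact_mod_cast h2
  linarith

/-- two good sums with difference `h` -/
theorem per_of_good (H : GraHyp L X J G f d ε u) {σ h : ℕ} (h1 : σ ∈ Jg L J G ε)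
    (h2 : σ + h ∈ Jg L J G ε) : Per L f h (16 * ε * L) d := by
  classical
  have hs : ((range L).filter fun i => i + h < L ∧ d < dist (f i) (f (i + h))) ⊆
      ((range L).filter fun i => ¬ G σ i) ∪
      ((range L).filter fun i => i + h < L ∧ ¬ G (σ + h) (i + h)) := by
    intro i hi
    rw [mem_filter, mem_range] at hi
    rw [mem_union, mem_filter, mem_filter, mem_range]
    by_cases h3 : G σ i
    · right
      refine ⟨hi.1, hi.2.1, fun h4 => ?_⟩
      have := H.agree σ (Jg_sub h1) (σ + h) (Jg_sub h2) i hi.1 (i + h) hi.2.1 (by ring) h3 h4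
      exact absurd this (not_le.2 hi.2.2)
    · exact Or.inl ⟨hi.1, h3⟩
  have hinj : ((range L).filter fun i => i + h < L ∧ ¬ G (σ + h) (i + h)).card ≤
      ((range L).filter fun i => ¬ G (σ + h) i).card := by
    apply card_le_card_of_injOn (fun i => i + h)
    · intro i hi
      rw [mem_coe, mem_filter] at hi ⊢
      exact ⟨mem_range.2 hi.2.1, hi.2.2⟩
    · intro i _ j _ hij
      simpa using hij
  have h5 : (((range L).filter fun i => ¬ G σ i).card : ℝ) ≤ 8 * ε * L := by
    rw [Jg, mem_filter] at h1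
    exact h1.2
  have h6 : (((range L).filter fun i => ¬ G (σ + h) i).card : ℝ) ≤ 8 * ε * L := by
    rw [Jg, mem_filter] at h2
    exact h2.2
  have h7 : (((range L).filter fun i => i + h < L ∧ d < dist (f i) (f (i + h))).card : ℝ) ≤
      (((range L).filter fun i => ¬ G σ i).card : ℝ) +
      (((range L).filter fun i => ¬ G (σ + h) i).card : ℝ) := by
    exact_mod_cast le_trans (card_le_card hs) (le_trans (card_union_le _ _)
      (Nat.add_le_add_left hinj _))
  unfold Per
  linarith

/-- the step one -/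
theorem per_one (H : GraHyp L X J G f d ε u) : Per L f 1 (16 * ε * L) d := by
  classical
  have hJ := H.J_pos
  by_contra hcon
  have h1 : ∀ σ, σ ∈ Jg L J G ε → σ + 1 ∉ Jg L J G ε := by
    intro σ h1 h2
    exact hcon (H.per_of_good h1 h2)
  have hsub : J ⊆ (J.filter fun σ => σ ∉ Jg L J G ε) ∪ ((J.filter fun σ => σ + 1 ∉ J) ∪
      (J.filter fun σ => σ + 1 ∈ J ∧ σ + 1 ∉ Jg L J G ε)) := by
    intro σ hσ
    rw [mem_union, mem_union, mem_filter, mem_filter, mem_filter]
    by_cases h2 : σ ∈ Jg L J G ε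
    · by_cases h3 : σ + 1 ∈ J
      · exact Or.inr (Or.inr ⟨hσ, h3, h1 σ h2⟩)
      · exact Or.inr (Or.inl ⟨hσ, h3⟩)
    · exact Or.inl ⟨hσ, h2⟩
  have hinj : (J.filter fun σ => σ + 1 ∈ J ∧ σ + 1 ∉ Jg L J G ε).card ≤
      (J.filter fun σ => σ ∉ Jg L J G ε).card := by
    apply card_le_card_of_injOn (fun i => i + 1)
    · intro i hi
      rw [mem_coe, mem_filter] at hi ⊢
      exact hi.2
    · intro i _ j _ hij
      simpa using hij
  have h4 : (J.card : ℝ) ≤ ((J.filter fun σ => σ ∉ Jg L J G ε).card : ℝ) +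
      (((J.filter fun σ => σ + 1 ∉ J).card : ℝ) +
      ((J.filter fun σ => σ ∉ Jg L J G ε).card : ℝ)) := by
    have := le_trans (card_le_card hsub) (le_trans (card_union_le _ _)
      (Nat.add_le_add_left (le_trans (card_union_le _ _) (Nat.add_le_add_left hinj _)) _))
    exact_mod_cast this
  have h5 := H.card_bad
  have h6 := H.thick
  linarith

/-- bridges -/
theorem bridge (H : GraHyp L X J G f d ε u) {n : ℕ} (hn : 3 / u ≤ n) {h : ℕ}
    (hh : n * h ≤ X) : ∃ j, 1 ≤ j ∧ j ≤ n ∧ Per L f (j * h) (16 * ε * L) d := by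
  classical
  by_contra hcon
  push Not at hcon
  have hX : 0 < X := lt_of_lt_of_le H.L0 H.LX
  have key : ((range (n + 1)) ×ˢ (Jg L J G ε)).card ≤ (range (2 * X)).card := by
    apply card_le_card_of_injOn (fun p => p.2 + p.1 * h)
    · rintro ⟨j, σ⟩ hp
      rw [mem_coe, mem_product, mem_range] at hp
      rw [mem_coe, mem_range]
      have h1 := H.JX σ (Jg_sub hp.2)
      have h2 : j * h ≤ n * h := Nat.mul_le_mul_right _ (by omega)
      show σ + j * h < 2 * X
      omega
    · have aux : ∀ j j' σ σ', j < j' → j' < n + 1 → σ ∈ Jg L J G ε → σ' ∈ Jg L J G ε →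
          σ + j * h ≠ σ' + j' * h := by
        intro j j' σ σ' hj hj' hσ hσ' he
        have h3 : σ = σ' + (j' - j) * h := by
          have : j' * h = j * h + (j' - j) * h := by
            rw [← add_mul]
            congr 1
            omega
          omega
        apply hcon (j' - j) (by omega) (by omega)
        rw [h3] at hσ
        exact H.per_of_good hσ' hσ
      rintro ⟨j, σ⟩ hp ⟨j', σ'⟩ hp' he
      rw [mem_coe, mem_product, mem_range] at hp hp'
      have he' : σ + j * h = σ' + j' * h := he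
      rcases lt_trichotomy j j' with hlt | heq | hgt
      · exact absurd he' (aux j j' σ σ' hlt hp'.1 hp.2 hp'.2)
      · subst heq
        have : σ = σ' := by omega
        rw [this]
      · exact absurd he'.symm (aux j' j σ' σ hgt hp.1 hp'.2 hp.2)
  rw [card_product, card_range, card_range] at key
  have h1 : ((n : ℝ) + 1) * ((Jg L J G ε).card : ℝ) ≤ 2 * X := by exact_mod_cast key
  have h2 := H.Jg_card
  have h3 := H.Jcard
  have hu := H.u0
  have hX' : (0 : ℝ) < X := by exact_mod_cast hX
  have h4 : 3 ≤ n * u := by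
    rw [div_le_iff₀ hu] at hn
    exact hn
  have h5 : u * X * 7 ≤ 8 * ((Jg L J G ε).card : ℝ) := by linarith
  have h6 : ((n : ℝ) + 1) * (u * X * 7) ≤ ((n : ℝ) + 1) * (8 * ((Jg L J G ε).card : ℝ)) :=
    mul_le_mul_of_nonneg_left h5 (by positivity)
  have h7 : ((n : ℝ) + 1) * (u * X * 7) = 7 * (n * u) * X + 7 * (u * X) := by ring
  have h8 : 7 * 3 * X ≤ 7 * (n * u) * X := by
    apply mul_le_mul_of_nonneg_right _ hX'.le
    linarith
  have h9 : 0 < u * X := mul_pos hu hX'
  nlinarith

/-- all differences -/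
theorem per_all (H : GraHyp L X J G f d ε u) {n : ℕ} (hn : 3 / u ≤ n) {h : ℕ}
    (hh : h < L) : Per L f h (32 * n.factorial * ε * L) (2 * n.factorial * d) := by
  set N := n.factorial with hN
  have hN0 : 0 < N := Nat.factorial_pos n
  have hn0 : 1 ≤ n := by
    rcases Nat.eq_zero_or_pos n with h0 | h0
    · subst h0
      have : 0 < 3 / u := div_pos (by norm_num) H.u0
      simp only [Nat.cast_zero] at hn
      linarith
    · exact h0
  have hLr : (0 : ℝ) < L := by exact_mod_cast H.L0
  have hε := H.ε0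
  have hd := H.d0
  have h1 : Per L f (h % N) (N * (16 * ε * L)) (N * d) := by
    have := H.per_one.mul (h % N)
    rw [mul_one] at this
    have hlt : ((h % N : ℕ) : ℝ) ≤ N := by exact_mod_cast (Nat.mod_lt h hN0).le
    refine this.mono ?_ ?_
    · exact mul_le_mul_of_nonneg_right hlt (by positivity)
    · exact mul_le_mul_of_nonneg_right hlt hd
  have h2 : Per L f (N * (h / N)) (N * (16 * ε * L)) (N * d) := by
    have hle : N * (h / N) ≤ h := Nat.mul_div_le h N
    have hnN : n ≤ N := Nat.self_le_factorial n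
    have hle2 : n * (h / N) ≤ X := by
      have := Nat.mul_le_mul_right (h / N) hnN
      have := H.LX
      omega
    obtain ⟨j, hj1, hj2, hP⟩ := H.bridge hn hle2
    obtain ⟨q, hq⟩ := Nat.dvd_factorial hj1 hj2
    have hP' := hP.mul q
    have e1 : q * (j * (h / N)) = N * (h / N) := by
      rw [hN, hq]
      ring
    rw [e1] at hP'
    have hqN : (q : ℝ) ≤ N := by
      have : q ≤ N := by
        rw [hN, hq]
        exact Nat.le_mul_of_pos_left q hj1
      exact_mod_cast this
    refine hP'.mono ?_ ?_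
    · exact mul_le_mul_of_nonneg_right hqN (by positivity)
    · exact mul_le_mul_of_nonneg_right hqN hd
  have h3 := h2.add h1
  rw [Nat.div_add_mod] at h3
  refine h3.mono (le_of_eq ?_) (le_of_eq ?_)
  · ring
  · ring

end GraHyp

open Classical in
/-- Module GRA: all values but a small proportion agree. -/
theorem gra_thm {L X : ℕ} {J : Finset ℕ} {G : ℕ → ℕ → Prop} {f : ℕ → E} {d ε u : ℝ}
    (H : GraHyp L X J G f d ε u) {n : ℕ} (hn : 3 / u ≤ n) :
    ∃ i0 < L, (((range L).filter fun i => 2 * n.factorial * d < dist (f i0) (f i)).card : ℝ) ≤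
      64 * n.factorial * ε * L := by
  set D := 2 * n.factorial * d with hD
  set e := 32 * n.factorial * ε * L with he
  have hLr : (0 : ℝ) < L := by exact_mod_cast H.L0
  -- the sum over the differences
  have h1 : (∑ h ∈ range L, (((range L).filter fun i => i + h < L ∧
      D < dist (f i) (f (i + h))).card : ℝ)) ≤ L * e := by
    calc _ ≤ ∑ _h ∈ range L, e := sum_le_sum fun h hh => H.per_all hn (mem_range.1 hh)
      _ = L * e := by rw [sum_const, card_range, nsmul_eq_mul]
  -- pairs
  have aux : ((range L ×ˢ range L).filter fun p => p.1 ≤ p.2 ∧ D < dist (f p.1) (f p.2)).card ≤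
      ∑ h ∈ range L, ((range L).filter fun i => i + h < L ∧ D < dist (f i) (f (i + h))).card := by
    rw [← card_sigma]
    apply card_le_card_of_injOn (fun p => (⟨p.2 - p.1, p.1⟩ : (_ : ℕ) × ℕ))
    · rintro ⟨i, i'⟩ hp
      rw [mem_coe, mem_filter, mem_product, mem_range, mem_range] at hp
      rw [mem_coe, mem_sigma, mem_range, mem_filter, mem_range]
      obtain ⟨⟨ha, hb⟩, hc, hd⟩ := hp
      have e1 : i + (i' - i) = i' := Nat.add_sub_cancel' hc
      refine ⟨?_, ha, ?_, ?_⟩
      · show i' - i < L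
        have : i' < L := hb
        omega
      · show i + (i' - i) < L
        rw [e1]; exact hb
      · show D < dist (f i) (f (i + (i' - i)))
        rw [e1]; exact hd
    · rintro ⟨i, i'⟩ hp ⟨j, j'⟩ hp' hh
      rw [mem_coe, mem_filter] at hp hp'
      simp only [Sigma.mk.injEq, heq_eq_eq] at hh
      have hc : i ≤ i' := hp.2.1
      have hc' : j ≤ j' := hp'.2.1
      have : i' = j' := by omega
      rw [hh.2, this]
  have hswap : ((range L ×ˢ range L).filter fun p => p.2 ≤ p.1 ∧ D < dist (f p.1) (f p.2)).card ≤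
      ((range L ×ˢ range L).filter fun p => p.1 ≤ p.2 ∧ D < dist (f p.1) (f p.2)).card := by
    apply card_le_card_of_injOn (fun p => (p.2, p.1))
    · rintro ⟨i, i'⟩ hp
      rw [mem_coe, mem_filter, mem_product] at hp ⊢
      exact ⟨⟨hp.1.2, hp.1.1⟩, hp.2.1, by rw [dist_comm]; exact hp.2.2⟩
    · rintro ⟨i, i'⟩ _ ⟨j, j'⟩ _ hh
      simp only [Prod.mk.injEq] at hh
      rw [hh.1, hh.2]
  have htot : ∑ i ∈ range L, ((range L).filter fun i' => D < dist (f i) (f i')).card ≤
      ((range L ×ˢ range L).filter fun p => p.1 ≤ p.2 ∧ D < dist (f p.1) (f p.2)).card +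
      ((range L ×ˢ range L).filter fun p => p.2 ≤ p.1 ∧ D < dist (f p.1) (f p.2)).card := by
    refine le_trans ?_ (card_union_le _ _)
    rw [← card_sigma]
    apply card_le_card_of_injOn (fun p => (p.1, p.2))
    · rintro ⟨i, i'⟩ hp
      rw [mem_coe, mem_sigma, mem_filter] at hp
      rw [mem_coe, mem_union, mem_filter, mem_filter, mem_product]
      rcases le_total i i' with h | h
      · exact Or.inl ⟨⟨hp.1, hp.2.1⟩, h, hp.2.2⟩
      · exact Or.inr ⟨⟨hp.1, hp.2.1⟩, h, hp.2.2⟩
    · rintro ⟨i, i'⟩ _ ⟨j, j'⟩ _ hh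
      simp only [Prod.mk.injEq] at hh
      rw [hh.1, hh.2]
  have hfin : (∑ i ∈ range L, (((range L).filter fun i' => D < dist (f i) (f i')).card : ℝ)) ≤
      ∑ _i ∈ range L, 2 * e := by
    rw [sum_const, card_range, nsmul_eq_mul]
    have h2 : (∑ i ∈ range L, (((range L).filter fun i' => D < dist (f i) (f i')).card : ℝ)) ≤
        2 * (∑ h ∈ range L, (((range L).filter fun i => i + h < L ∧
          D < dist (f i) (f (i + h))).card : ℝ)) := by
      have := le_trans htot (Nat.add_le_add aux (le_trans hswap aux))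
      rw [← two_mul] at this
      exact_mod_cast this
    linarith
  have hne : (range L).Nonempty := ⟨0, mem_range.2 H.L0⟩
  obtain ⟨i0, hi0, h3⟩ := exists_le_of_sum_le hne hfin
  refine ⟨i0, mem_range.1 hi0, le_trans h3 (le_of_eq ?_)⟩
  rw [he]
  ring

end Pool.OC
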