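import Pool.Agent.H66.OC.Gra

/-!
Theorem OC, module GRA, version with a finite law `w i` of the pairs at the scale `i`.
-/

namespace Pool.OC

open Finset

variable {E : Type*} [PseudoMetricSpace E]

open Classical in
/-- the hypotheses of the module GRAP -/
structure GrapHyp {P : Type*} [Fintype P] (L X : ℕ) (J : Finset ℕ) (w : ℕ → P → ℝ)
    (G : ℕ → ℕ → P → Prop) (f : ℕ → P → E) (d ε u : ℝ) : Prop where
  L0 : 0 < L
  LX : L ≤ X
  d0 : 0 ≤ d
  ε0 : 0 ≤ ε
  u0 : 0 < u
  w0 : ∀ i < L, ∀ p, 0 ≤ w i p
  w1 : ∀ i < L, ∑ p, w i p = 1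
  JX : ∀ σ ∈ J, σ < X
  Jcard : u * X ≤ J.card
  thick : (4 : ℝ) * ((J.filter fun σ => σ + 1 ∉ J).card : ℝ) ≤ J.card
  agree : ∀ σ ∈ J, ∀ σ' ∈ J, ∀ i < L, ∀ i' < L, ∀ p p', σ + i' = σ' + i → G σ i p →
    G σ' i' p' → dist (f i p) (f i' p') ≤ d
  bad : ∑ i ∈ range L, ∑ p, w i p * ((J.filter fun σ => ¬ G σ i p).card : ℝ) ≤
    ε * (J.card * L)

open Classical in
/-- Module GRA with laws of pairs. -/
theorem grap_thm {P : Type*} [Fintype P] {L X : ℕ} {J : Finset ℕ} {w : ℕ → P → ℝ}
    {G : ℕ → ℕ → P → Prop} {f : ℕ → P → E} {d ε u : ℝ} (H : GrapHyp L X J w G f d ε u) {n : ℕ}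
    (hn : 3 / u ≤ n) : ∃ La : E,
    ∑ i ∈ range L, ∑ p, w i p * (if (2 * n.factorial + 1) * d < dist (f i p) La then 1 else 0) ≤
      (64 * n.factorial + 2) * ε * L := by
  have hX : 0 < X := lt_of_lt_of_le H.L0 H.LX
  have hJ : (0 : ℝ) < J.card := lt_of_lt_of_le (mul_pos H.u0 (by exact_mod_cast hX)) H.Jcard
  set b : ℕ → P → ℝ := fun i p => ((J.filter fun σ => ¬ G σ i p).card : ℝ) with hb
  have hb0 : ∀ i p, 0 ≤ b i p := fun i p => by positivity
  -- representatives
  have hrep : ∀ i, i < L → ∃ p, b i p ≤ ∑ q, w i q * b i q := by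
    intro i hi
    by_contra hcon
    push Not at hcon
    set A := ∑ q, w i q * b i q with hA
    have hne : (univ : Finset P).Nonempty := by
      rw [nonempty_iff_ne_empty]
      intro h0
      have := H.w1 i hi
      rw [h0, sum_empty] at this
      exact zero_ne_one this
    have h1 : A = ∑ q, w i q * A := by rw [← sum_mul, H.w1 i hi, one_mul]
    have h2 : ∑ q, w i q * A ≤ ∑ q, w i q * b i q :=
      sum_le_sum fun q _ => mul_le_mul_of_nonneg_left (hcon q).le (H.w0 i hi q)
    have h3 : ∃ q ∈ (univ : Finset P), w i q * A < w i q * b i q := by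
      by_contra h4
      push Not at h4
      have h5 : ∀ q, w i q = 0 := by
        intro q
        by_contra h6
        have h7 : 0 < w i q := lt_of_le_of_ne (H.w0 i hi q) (Ne.symm h6)
        exact absurd (mul_lt_mul_of_pos_left (hcon q) h7) (not_lt.2 (h4 q (mem_univ q)))
      have := H.w1 i hi
      simp only [h5, sum_const_zero] at this
      exact zero_ne_one this
    have h4 : ∑ q, w i q * A < ∑ q, w i q * b i q :=
      sum_lt_sum (fun q _ => mul_le_mul_of_nonneg_left (hcon q).le (H.w0 i hi q)) h3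
    linarith
  have hP : Nonempty P := by
    obtain ⟨p, _⟩ := hrep 0 H.L0
    exact ⟨p⟩
  choose! r hr using hrep
  -- the basic module
  have hbad : ∑ σ ∈ J, (((range L).filter fun i => ¬ G σ i (r i)).card : ℝ) ≤
      ε * (J.card * L) := by
    have e1 : ∑ σ ∈ J, (((range L).filter fun i => ¬ G σ i (r i)).card : ℝ) =
        ∑ i ∈ range L, b i (r i) := by
      simp only [hb, card_filter, Nat.cast_sum]
      rw [sum_comm]
    rw [e1]
    refine le_trans (sum_le_sum fun i hi => hr i (mem_range.1 hi)) H.bad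
  have HG : GraHyp L X J (fun σ i => G σ i (r i)) (fun i => f i (r i)) d ε u :=
    { L0 := H.L0
      LX := H.LX
      d0 := H.d0
      ε0 := H.ε0
      u0 := H.u0
      JX := H.JX
      Jcard := H.Jcard
      thick := H.thick
      agree := fun σ hσ σ' hσ' i hi i' hi' he h1 h2 =>
        H.agree σ hσ σ' hσ' i hi i' hi' _ _ he h1 h2
      bad := hbad }
  obtain ⟨i0, hi0, h0⟩ := gra_thm HG hn
  refine ⟨f i0 (r i0), ?_⟩
  set La := f i0 (r i0) with hLa
  set N : ℝ := (n.factorial : ℝ) with hN
  -- pointwise bound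
  have hpt : ∀ i < L, ∀ p, (if (2 * N + 1) * d < dist (f i p) La then (1 : ℝ) else 0) ≤
      (if 2 * N * d < dist La (f i (r i)) then (1 : ℝ) else 0) +
        (b i p + b i (r i)) / J.card := by
    intro i hi p
    by_cases h1 : (2 * N + 1) * d < dist (f i p) La
    · rw [if_pos h1]
      by_cases h2 : 2 * N * d < dist La (f i (r i))
      · rw [if_pos h2]
        have : 0 ≤ (b i p + b i (r i)) / J.card :=
          div_nonneg (add_nonneg (hb0 _ _) (hb0 _ _)) hJ.le
        linarith
      · rw [if_neg h2, zero_add, le_div_iff₀ hJ, one_mul]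
        have h3 : J ⊆ (J.filter fun σ => ¬ G σ i p) ∪ (J.filter fun σ => ¬ G σ i (r i)) := by
          intro σ hσ
          rw [mem_union, mem_filter, mem_filter]
          by_contra h4
          have h5 : G σ i p := by
            by_contra h6
            exact h4 (Or.inl ⟨hσ, h6⟩)
          have h6 : G σ i (r i) := by
            by_contra h7
            exact h4 (Or.inr ⟨hσ, h7⟩)
          have h7 := H.agree σ hσ σ hσ i hi i hi p (r i) rfl h5 h6
          have h8 := dist_triangle (f i p) (f i (r i)) La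
          rw [dist_comm (f i (r i)) La] at h8
          push Not at h2
          linarith
        have h4 := le_trans (card_le_card h3) (card_union_le _ _)
        simp only [hb]
        exact_mod_cast h4
    · rw [if_neg h1]
      have h3 : 0 ≤ (b i p + b i (r i)) / J.card :=
        div_nonneg (add_nonneg (hb0 _ _) (hb0 _ _)) hJ.le
      split_ifs <;> linarith
  -- summation
  have hsum : ∀ i < L, ∑ p, w i p *
      (if (2 * N + 1) * d < dist (f i p) La then (1 : ℝ) else 0) ≤
      (if 2 * N * d < dist La (f i (r i)) then (1 : ℝ) else 0) +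
        2 * (∑ p, w i p * b i p) / J.card := by
    intro i hi
    calc ∑ p, w i p * (if (2 * N + 1) * d < dist (f i p) La then (1 : ℝ) else 0)
        ≤ ∑ p, w i p * ((if 2 * N * d < dist La (f i (r i)) then (1 : ℝ) else 0) +
          (b i p + b i (r i)) / J.card) :=
          sum_le_sum fun p _ => mul_le_mul_of_nonneg_left (hpt i hi p) (H.w0 i hi p)
      _ = (∑ p, w i p) * (if 2 * N * d < dist La (f i (r i)) then (1 : ℝ) else 0) +
          (∑ p, w i p * b i p) / J.card + (∑ p, w i p) * (b i (r i) / J.card) := by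
          rw [sum_mul, sum_mul, sum_div, ← sum_add_distrib, ← sum_add_distrib]
          refine sum_congr rfl fun p _ => ?_
          ring
      _ ≤ _ := by
          rw [H.w1 i hi, one_mul, one_mul]
          have h1 : b i (r i) / J.card ≤ (∑ p, w i p * b i p) / J.card :=
            div_le_div_of_nonneg_right (hr i hi) hJ.le
          have e1 : 2 * (∑ p, w i p * b i p) / (J.card : ℝ) =
              (∑ p, w i p * b i p) / J.card + (∑ p, w i p * b i p) / J.card := by ring
          rw [e1]
          linarith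
  calc ∑ i ∈ range L, ∑ p, w i p * (if (2 * N + 1) * d < dist (f i p) La then (1 : ℝ) else 0)
      ≤ ∑ i ∈ range L, ((if 2 * N * d < dist La (f i (r i)) then (1 : ℝ) else 0) +
        2 * (∑ p, w i p * b i p) / J.card) := sum_le_sum fun i hi => hsum i (mem_range.1 hi)
    _ = (((range L).filter fun i => 2 * N * d < dist La (f i (r i))).card : ℝ) +
        2 * (∑ i ∈ range L, ∑ p, w i p * b i p) / J.card := by
        rw [sum_add_distrib, card_filter]
        push_cast
        congr 1
        rw [mul_sum, sum_div]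
    _ ≤ 64 * N * ε * L + 2 * (ε * (J.card * L)) / J.card := by
        apply add_le_add h0
        apply div_le_div_of_nonneg_right _ hJ.le
        exact mul_le_mul_of_nonneg_left H.bad (by norm_num)
    _ = (64 * N + 2) * ε * L := by
        field_simp

end Pool.OC
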